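import Pool.Agent.W401.FL.Defs

/-! Inertia elements of the absolute Galois group and the different. -/

set_option autoImplicit false
set_option linter.unusedSectionVars false

namespace Pool.Agent.W45.FLU

open NumberField IsDedekindDomain Pool.Agent.W401.Cheb Pool.Agent.W401.FL
open scoped Pointwise

section lev
variable {L : Type} [Field L] [NumberField L] {Ω : Type} [Field Ω] [Algebra L Ω] [IsGalois L Ω]

theorem coe_smul (σ : Gal(Ω/L)) (x : 𝓞 Ω) : ((σ • x : 𝓞 Ω) : Ω) = σ x := rfl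

theorem smulComm : SMulCommClass Gal(Ω/L) (𝓞 L) (𝓞 Ω) := by
  refine ⟨fun g a b => ?_⟩
  apply RingOfIntegers.ext
  rw [coe_smul, Algebra.smul_def, Algebra.smul_def]
  show g ((algebraMap (𝓞 L) (𝓞 Ω) a : 𝓞 Ω) * (b : Ω)) =
    (algebraMap (𝓞 L) (𝓞 Ω) a : 𝓞 Ω) * g b
  rw [map_mul]
  congr 1
  exact g.commutes (a : L)

theorem isInv : Algebra.IsInvariant (𝓞 L) (𝓞 Ω) Gal(Ω/L) := by
  refine ⟨fun b hb => ?_⟩
  have h1 : (b : Ω) ∈ (⊥ : IntermediateField L Ω) := by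
    rw [InfiniteGalois.mem_bot_iff_fixed]
    intro g
    have := congrArg (fun z : 𝓞 Ω => (z : Ω)) (hb g)
    exact this
  obtain ⟨k, hk⟩ := IntermediateField.mem_bot.1 h1
  have h2 : IsIntegral ℤ k := by
    have h3 : IsIntegral ℤ (algebraMap L Ω k) := by
      rw [hk]
      exact b.2
    exact (isIntegral_algebraMap_iff (algebraMap L Ω).injective).1 h3
  refine ⟨⟨k, h2⟩, ?_⟩
  apply RingOfIntegers.ext
  exact hk

theorem trans_surj (P : Ideal (𝓞 L)) [P.IsMaximal] (Q Q' : Ideal (𝓞 Ω)) [Q.IsPrime] [Q'.IsPrime]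
    (hQ : Q.comap (algebraMap (𝓞 L) (𝓞 Ω)) = P) (hQ' : Q'.comap (algebraMap (𝓞 L) (𝓞 Ω)) = P) :
    ∃ h : Gal(Ω/L), Q = h • Q' := by
  have : SMulCommClass Gal(Ω/L) (𝓞 L) (𝓞 Ω) := smulComm
  have : Algebra.IsInvariant (𝓞 L) (𝓞 Ω) Gal(Ω/L) := isInv
  let _ : TopologicalSpace (𝓞 Ω) := ⊥
  have : DiscreteTopology (𝓞 Ω) := ⟨rfl⟩
  have : ContinuousSMul Gal(Ω/L) (𝓞 Ω) := by
    rw [continuousSMul_iff_stabilizer_isOpen]
    intro x
    have h1 := stabilizer_isOpen_of_isIntegral (K := L) (x : Ω)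
    convert h1 using 2
    ext g
    rw [MulAction.mem_stabilizer_iff, MulAction.mem_stabilizer_iff]
    constructor
    · intro h
      exact congrArg (fun z : 𝓞 Ω => (z : Ω)) h
    · intro h
      exact RingOfIntegers.ext h
  exact Algebra.IsInvariant.exists_smul_of_under_eq_of_profinite (A := 𝓞 L)
    (G := Gal(Ω/L)) Q' Q (hQ'.trans hQ.symm)

theorem stab_surj (P : Ideal (𝓞 L)) [P.IsMaximal] (Q : Ideal (𝓞 Ω)) [Q.IsPrime]
    (hQ : Q.comap (algebraMap (𝓞 L) (𝓞 Ω)) = P) (f : 𝓞 Ω ≃+* 𝓞 Ω)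
    (hf : ∀ x, f x ∈ Q ↔ x ∈ Q)
    (hfL : ∀ x : 𝓞 L, f (algebraMap (𝓞 L) (𝓞 Ω) x) - algebraMap (𝓞 L) (𝓞 Ω) x ∈ Q) :
    ∃ h : Gal(Ω/L), (∀ x : 𝓞 Ω, h • x ∈ Q ↔ x ∈ Q) ∧ ∀ x : 𝓞 Ω, f x - h • x ∈ Q := by
  have : SMulCommClass Gal(Ω/L) (𝓞 L) (𝓞 Ω) := smulComm
  have : Algebra.IsInvariant (𝓞 L) (𝓞 Ω) Gal(Ω/L) := isInv
  let _ : TopologicalSpace (𝓞 Ω) := ⊥
  have : DiscreteTopology (𝓞 Ω) := ⟨rfl⟩
  have : ContinuousSMul Gal(Ω/L) (𝓞 Ω) := by
    rw [continuousSMul_iff_stabilizer_isOpen]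
    intro x
    have h1 := stabilizer_isOpen_of_isIntegral (K := L) (x : Ω)
    convert h1 using 2
    ext g
    rw [MulAction.mem_stabilizer_iff, MulAction.mem_stabilizer_iff]
    constructor
    · intro h
      exact congrArg (fun z : 𝓞 Ω => (z : Ω)) h
    · intro h
      exact RingOfIntegers.ext h
  have : Q.LiesOver P := ⟨hQ.symm⟩
  have hmap : Q = Q.map (f : 𝓞 Ω →+* 𝓞 Ω) := by
    ext x
    rw [Ideal.map_comap_of_equiv f, Ideal.mem_comap]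
    rw [← hf (f.symm x)]
    simp
  let σ : (𝓞 Ω ⧸ Q) ≃ₐ[𝓞 L ⧸ P] (𝓞 Ω ⧸ Q) :=
    { Ideal.quotientEquiv Q Q f hmap with
      commutes' := by
        rintro ⟨x⟩
        show Ideal.quotientEquiv Q Q f hmap (Ideal.Quotient.mk Q (algebraMap (𝓞 L) (𝓞 Ω) x)) =
          Ideal.Quotient.mk Q (algebraMap (𝓞 L) (𝓞 Ω) x)
        rw [Ideal.quotientEquiv_mk, Ideal.Quotient.mk_eq_mk_iff_sub_mem]
        exact hfL x }
  obtain ⟨⟨g, hgs⟩, hg⟩ :=
    Ideal.Quotient.stabilizerHom_surjective_of_profinite (G := Gal(Ω/L)) P Q σ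
  have hst : g • Q = Q := hgs
  refine ⟨g, fun x => ?_, fun x => ?_⟩
  · constructor
    · intro h
      rw [← hst] at h
      exact (Ideal.smul_mem_pointwise_smul_iff).1 h
    · intro h
      have := (Ideal.smul_mem_pointwise_smul_iff (a := g)).2 h
      rwa [hst] at this
  · have h1 := DFunLike.congr_fun hg (Ideal.Quotient.mk Q x)
    rw [Ideal.Quotient.stabilizerHom_apply] at h1
    have h2 : Ideal.Quotient.mk Q (g • x) = Ideal.Quotient.mk Q (f x) := h1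
    rw [← Ideal.Quotient.mk_eq_mk_iff_sub_mem]
    exact h2.symm

end lev

section tower
variable {K : Type} [Field K] [NumberField K] {L : Type} [Field L] [NumberField L] [Algebra K L]
  {Ω : Type} [Field Ω] [Algebra K Ω] [Algebra L Ω] [IsScalarTower K L Ω] [IsGalois K Ω]

theorem lift_inert (P : Ideal (𝓞 L)) [P.IsMaximal] (s : Gal(L/K)) (hs : ∀ x : 𝓞 L, s • x - x ∈ P) :
    ∃ Q : Ideal (𝓞 Ω), Q.IsMaximal ∧ Q.comap (algebraMap (𝓞 L) (𝓞 Ω)) = P ∧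
      ∃ t : Gal(Ω/K), (∀ x : 𝓞 Ω, t • x - x ∈ Q) ∧
        ∀ x : L, t (algebraMap L Ω x) = algebraMap L Ω (s x) := by
  have : IsGalois L Ω := IsGalois.tower_top_of_isGalois K L Ω
  obtain ⟨Q, hQm, hQP⟩ := Ideal.exists_ideal_over_maximal_of_isIntegral (S := 𝓞 Ω) P (by
    rw [(RingHom.injective_iff_ker_eq_bot _).1 (FaithfulSMul.algebraMap_injective (𝓞 L) (𝓞 Ω))]
    exact bot_le)
  have hcoe : ∀ (τ : Gal(Ω/K)) (x : 𝓞 Ω), ((τ • x : 𝓞 Ω) : Ω) = τ x := fun _ _ => rfl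
  set t0 : Gal(Ω/K) := s.liftNormal Ω with ht0
  have ht0c : ∀ x : L, t0 (algebraMap L Ω x) = algebraMap L Ω (s x) := fun x =>
    AlgEquiv.liftNormal_commutes s Ω x
  have ht0i : ∀ x : 𝓞 L, t0⁻¹ • (algebraMap (𝓞 L) (𝓞 Ω) x) = algebraMap (𝓞 L) (𝓞 Ω) (s⁻¹ • x) := by
    intro x
    rw [inv_smul_eq_iff]
    apply RingOfIntegers.ext
    rw [hcoe]
    show algebraMap L Ω (x : L) = t0 (algebraMap L Ω ((s⁻¹ • x : 𝓞 L) : L))
    rw [ht0c]
    congr 1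
    show (x : L) = s (s⁻¹ (x : L))
    exact (AlgEquiv.apply_symm_apply s (x : L)).symm
  have hmemP : ∀ x : 𝓞 L, algebraMap (𝓞 L) (𝓞 Ω) x ∈ Q ↔ x ∈ P := by
    intro x
    rw [← hQP]; rfl
  -- the conjugate ideal
  set Q0 : Ideal (𝓞 Ω) := Q.comap (MulSemiringAction.toRingHom Gal(Ω/K) (𝓞 Ω) t0⁻¹) with hQ0
  have hQ0m : ∀ x : 𝓞 Ω, x ∈ Q0 ↔ t0⁻¹ • x ∈ Q := fun x => Iff.rfl
  have hQ0max : Q0.IsMaximal := by
    refine Ideal.comap_isMaximal_of_surjective _ fun x => ⟨t0 • x, ?_⟩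
    exact inv_smul_smul t0 x
  have hQ0P : Q0.comap (algebraMap (𝓞 L) (𝓞 Ω)) = P := by
    ext x
    rw [Ideal.mem_comap, hQ0m, ht0i, hmemP]
    have h1 : x - s⁻¹ • x ∈ P := by
      have := hs (s⁻¹ • x)
      rwa [smul_inv_smul] at this
    constructor
    · intro h
      have := P.add_mem h1 h
      rwa [sub_add_cancel] at this
    · intro h
      have := P.sub_mem h h1
      rwa [sub_sub_cancel] at this
  obtain ⟨h, hh⟩ := trans_surj P Q Q0 hQP hQ0P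
  set hK : Gal(Ω/K) := h.restrictScalars K with hhK
  have hKs : ∀ x : 𝓞 Ω, hK • x = h • x := fun x => RingOfIntegers.ext rfl
  have hKsi : ∀ x : 𝓞 Ω, hK⁻¹ • x = h⁻¹ • x := by
    intro x
    rw [inv_smul_eq_iff, hKs, smul_inv_smul]
  set t1 : Gal(Ω/K) := hK * t0 with ht1
  have ht1Q : ∀ x : 𝓞 Ω, t1⁻¹ • x ∈ Q ↔ x ∈ Q := by
    intro x
    rw [ht1, mul_inv_rev, mul_smul, hKsi]
    constructor
    · intro hx
      rw [hh]
      exact Ideal.mem_pointwise_smul_iff_inv_smul_mem.2 hx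
    · intro hx
      rw [hh] at hx
      have hx' : h⁻¹ • x ∈ Q0 := Ideal.mem_pointwise_smul_iff_inv_smul_mem.1 hx
      exact (hQ0m _).1 hx'
  have ht1Q' : ∀ x : 𝓞 Ω, t1 • x ∈ Q ↔ x ∈ Q := by
    intro x
    have := ht1Q (t1 • x)
    rw [inv_smul_smul] at this
    exact this.symm
  have ht1c : ∀ x : L, t1 (algebraMap L Ω x) = algebraMap L Ω (s x) := by
    intro x
    show h (t0 (algebraMap L Ω x)) = _
    rw [ht0c]
    exact h.commutes _
  have ht1L : ∀ x : 𝓞 L, t1 • (algebraMap (𝓞 L) (𝓞 Ω) x) = algebraMap (𝓞 L) (𝓞 Ω) (s • x) := by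
    intro x
    apply RingOfIntegers.ext
    exact ht1c (x : L)
  obtain ⟨h', hh1, hh2⟩ := stab_surj P Q hQP
    (MulSemiringAction.toRingEquiv Gal(Ω/K) (𝓞 Ω) t1) ht1Q' (by
      intro x
      show t1 • (algebraMap (𝓞 L) (𝓞 Ω) x) - algebraMap (𝓞 L) (𝓞 Ω) x ∈ Q
      rw [ht1L, ← map_sub, hmemP]
      exact hs x)
  set hK' : Gal(Ω/K) := h'.restrictScalars K with hhK'
  have hKs' : ∀ x : 𝓞 Ω, hK' • x = h' • x := fun x => RingOfIntegers.ext rfl
  refine ⟨Q, hQm, hQP, hK'⁻¹ * t1, fun x => ?_, fun x => ?_⟩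
  · have h3 : t1 • x - h' • x ∈ Q := hh2 x
    rw [← hh1, ← hKs', ]
    rw [smul_sub, ← mul_smul, mul_inv_cancel_left, hKs']
    exact h3
  · show hK'⁻¹ (t1 (algebraMap L Ω x)) = _
    rw [ht1c]
    have h4 : hK' (algebraMap L Ω (s x)) = algebraMap L Ω (s x) := h'.commutes _
    conv_lhs => rw [← h4]
    exact AlgEquiv.symm_apply_apply hK' _

end tower

theorem main : TaskUnr := by
  intro K _ _ L _ _ _ _ φ v hφ P hP hPv
  let _ : Algebra L (AlgebraicClosure K) := φ.toRingHom.toAlgebra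
  have : IsScalarTower K L (AlgebraicClosure K) := IsScalarTower.of_algebraMap_eq fun x =>
    (φ.commutes x).symm
  have hPb : P ≠ ⊥ := by
    intro h
    apply v.ne_bot
    rw [← hPv, h, eq_bot_iff]
    intro x hx
    rw [Ideal.mem_comap, Ideal.mem_bot] at hx
    rw [Ideal.mem_bot]
    exact (FaithfulSMul.algebraMap_injective (𝓞 K) (𝓞 L)) (by rw [hx, map_zero])
  have hPm : P.IsMaximal := hP.isMaximal hPb
  have hin : ∀ s : Gal(L/K), s ∈ P.inertia Gal(L/K) → s = 1 := by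
    intro s hs
    obtain ⟨Q, hQm, hQP, t, ht1, ht2⟩ := lift_inert (Ω := AlgebraicClosure K) P s hs
    have h1 : IsInert v t := by
      refine ⟨Q, hQm, ?_, ht1⟩
      rw [← hPv, ← hQP]
      ext x
      rw [Ideal.mem_comap, Ideal.mem_comap, Ideal.mem_comap]
      have : algebraMap (𝓞 K) (𝓞 (AlgebraicClosure K)) x =
          algebraMap (𝓞 L) (𝓞 (AlgebraicClosure K)) (algebraMap (𝓞 K) (𝓞 L) x) := by
        apply RingOfIntegers.ext
        exact IsScalarTower.algebraMap_apply K L (AlgebraicClosure K) (x : K)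
      rw [this]
    ext x
    have h2 := hφ t h1 x
    have h3 := ht2 x
    have h4 : φ (s x) = φ x := h3.symm.trans h2
    exact φ.toRingHom.injective h4
  have hcard : Nat.card (P.inertia Gal(L/K)) = 1 := by
    rw [Nat.card_eq_one_iff_unique]
    refine ⟨⟨fun a b => ?_⟩, ⟨1⟩⟩
    apply Subtype.ext
    rw [hin a.1 a.2, hin b.1 b.2]
  have : P.LiesOver v.asIdeal := ⟨hPv.symm⟩
  have hvm : v.asIdeal.IsMaximal := v.isMaximal
  rw [Ideal.card_inertia_eq_ramificationIdxIn v.asIdeal P,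
    Ideal.ramificationIdxIn_eq_ramificationIdx v.asIdeal P Gal(L/K)] at hcard
  rw [not_dvd_differentIdeal_iff]
  exact Ideal.ramificationIdx_eq_one_iff.1 hcard

end Pool.Agent.W45.FLU
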